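import Mathlib
import Pool.Agent.KS6_19.PR

/-!
# Injective, `⊥P`- and projective dimension: exactly which triples occur

`Perp`, `PerpDimLE`, `perpDim` (class `⊥P` and the `⊥P`-dimension) are defined in
`Pool.Agent.KS6_19.PT`.  `injectiveDimension` and `projectiveDimension` are Mathlib's, with values
in `WithBot ℕ∞` (the value `⊥` is taken only by zero modules).
-/

namespace Pool.Agent.Results.MP_3e7e0d_al.AllTriples

open CategoryTheory Pool.Agent.KS6_19.PT Pool.Agent.KS6_19.PR

/-- **Main theorem.** For every ring and every nonzero module, the projective dimension is equal to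
the `⊥P`-dimension or is infinite; and this is the only restriction, whatever the injective
dimension is: over every field `k` there is one `k`-algebra `R` such that for all
`a, b, c ∈ {0, 1, …, ∞}` there is a nonzero `R`-module with injective dimension `a`,
`⊥P`-dimension `b` and projective dimension `c` if and only if `c = b` or `c = ∞`. -/
theorem result :
    (∀ (R : Type) [Ring R] (A : ModuleCat.{0} R), Nontrivial A →
      projectiveDimension A = (perpDim A : WithBot ℕ∞) ∨ projectiveDimension A = ⊤) ∧
    ∀ (k : Type) [Field k], ∃ (R : Type) (_ : Ring R) (_ : Algebra k R),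
      ∀ a b c : ℕ∞,
        (∃ A : ModuleCat.{0} R, Nontrivial A ∧ injectiveDimension A = (a : WithBot ℕ∞) ∧
          perpDim A = b ∧ projectiveDimension A = (c : WithBot ℕ∞)) ↔ (c = b ∨ c = ⊤) := by
  refine ⟨fun R _ A hA => pd_eq_perpDim_or_top A hA, fun k _ => ?_⟩
  refine ⟨Pool.Agent.KS6_19.PQ.QR k QQ, inferInstance, inferInstance, fun a b c => ⟨?_, ?_⟩⟩
  · rintro ⟨A, hA, -, hb, hc⟩
    rcases pd_eq_perpDim_or_top A hA with h | h
    · left
      rw [hc, hb] at h
      exact WithBot.coe_injective h
    · right
      rw [hc, ← WithBot.coe_top] at h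
      exact WithBot.coe_injective h
  · intro h
    exact exists_module k a b c h

end Pool.Agent.Results.MP_3e7e0d_al.AllTriples
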